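import Pool.Agent.Y6.F.Stm

/-!
# Sums over the pairs of modes whose frequencies have a given sum
-/

open Set Filter Topology

set_option autoImplicit false

namespace Pool.Agent.Y211.EF

open Pool.Agent.Y6.M (Md)

/-- Given `a`, there are at most two `b`. -/
theorem fib (i a : Md) : ∃ s : Finset Md, s.card ≤ 2 ∧ ∀ b : Md, a.1.1 + b.1.1 = i.1.1 → b ∈ s := by
  classical
  by_cases hk : i.1.1 - a.1.1 = 0
  · refine ⟨∅, by simp, fun b hb => ?_⟩
    exfalso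
    apply b.1.2
    have h1 : b.1.1 = i.1.1 - a.1.1 := by rw [← hb]; abel
    rw [h1, hk]
  · refine ⟨{(⟨_, hk⟩, true), (⟨_, hk⟩, false)}, Finset.card_le_two, fun b hb => ?_⟩
    have h1 : b.1.1 = i.1.1 - a.1.1 := by rw [← hb]; abel
    obtain ⟨⟨k, hk'⟩, s⟩ := b
    simp only at h1
    subst h1
    cases s <;> simp

open Classical in
theorem sum_fib (i a : Md) (c : ℝ) (hc : 0 ≤ c) :
    Summable (fun b : Md => if a.1.1 + b.1.1 = i.1.1 then c else 0) ∧
    ∑' b : Md, (if a.1.1 + b.1.1 = i.1.1 then c else 0) ≤ 2 * c := by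
  obtain ⟨s, hs, hb⟩ := fib i a
  have h0 : ∀ b ∉ s, (if a.1.1 + b.1.1 = i.1.1 then c else 0) = 0 := by
    intro b hbs
    rw [if_neg]
    exact fun h => hbs (hb b h)
  refine ⟨summable_of_ne_finset_zero h0, ?_⟩
  rw [tsum_eq_sum h0]
  have h1 : ∀ b ∈ s, (if a.1.1 + b.1.1 = i.1.1 then c else 0) ≤ c := by
    intro b _
    split_ifs
    · exact le_rfl
    · exact hc
  calc ∑ b ∈ s, (if a.1.1 + b.1.1 = i.1.1 then c else 0) ≤ s.card • c :=
        Finset.sum_le_card_nsmul _ _ _ h1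
    _ ≤ 2 * c := by
        rw [nsmul_eq_mul]
        exact mul_le_mul_of_nonneg_right (by exact_mod_cast hs) hc

open Classical in
/-- Sums over the pairs `(a, b)` with `k_a + k_b = k_i` of functions of `a`. -/
theorem sum_fst (i : Md) (F : Md → ℝ) (hF : ∀ a, 0 ≤ F a) (hs : Summable F) :
    Summable (fun p : Md × Md => if p.1.1.1 + p.2.1.1 = i.1.1 then F p.1 else 0) ∧
    ∑' p : Md × Md, (if p.1.1.1 + p.2.1.1 = i.1.1 then F p.1 else 0) ≤ 2 * ∑' a, F a := by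
  have h0 : (0 : Md × Md → ℝ) ≤
      fun p : Md × Md => if p.1.1.1 + p.2.1.1 = i.1.1 then F p.1 else 0 := by
    intro p
    show (0 : ℝ) ≤ if p.1.1.1 + p.2.1.1 = i.1.1 then F p.1 else 0
    split_ifs
    · exact hF _
    · exact le_rfl
  have h1 : ∀ a, Summable fun b : Md => if a.1.1 + b.1.1 = i.1.1 then F a else 0 :=
    fun a => (sum_fib i a (F a) (hF a)).1
  have h2 : ∀ a, ∑' b : Md, (if a.1.1 + b.1.1 = i.1.1 then F a else 0) ≤ 2 * F a :=
    fun a => (sum_fib i a (F a) (hF a)).2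
  have h3 : Summable fun a : Md => ∑' b : Md, (if a.1.1 + b.1.1 = i.1.1 then F a else 0) := by
    refine Summable.of_nonneg_of_le (fun a => tsum_nonneg fun b => h0 (a, b)) h2 (hs.mul_left 2)
  have h4 : Summable (fun p : Md × Md => if p.1.1.1 + p.2.1.1 = i.1.1 then F p.1 else 0) :=
    (summable_prod_of_nonneg h0).2 ⟨h1, h3⟩
  refine ⟨h4, ?_⟩
  rw [h4.tsum_prod]
  calc ∑' a : Md, ∑' b : Md, (if a.1.1 + b.1.1 = i.1.1 then F a else 0)
      ≤ ∑' a : Md, 2 * F a := Summable.tsum_le_tsum h2 h3 (hs.mul_left 2)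
    _ = 2 * ∑' a, F a := tsum_mul_left

open Classical in
/-- Sums over the pairs `(a, b)` with `k_a + k_b = k_i` of functions of `b`. -/
theorem sum_snd (i : Md) (F : Md → ℝ) (hF : ∀ a, 0 ≤ F a) (hs : Summable F) :
    Summable (fun p : Md × Md => if p.1.1.1 + p.2.1.1 = i.1.1 then F p.2 else 0) ∧
    ∑' p : Md × Md, (if p.1.1.1 + p.2.1.1 = i.1.1 then F p.2 else 0) ≤ 2 * ∑' a, F a := by
  obtain ⟨h1, h2⟩ := sum_fst i F hF hs
  have h3 : (fun p : Md × Md => if p.1.1.1 + p.2.1.1 = i.1.1 then F p.2 else 0) =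
      (fun p : Md × Md => if p.1.1.1 + p.2.1.1 = i.1.1 then F p.1 else 0) ∘
        (Equiv.prodComm Md Md) := by
    funext p
    show _ = if p.2.1.1 + p.1.1.1 = i.1.1 then F p.2 else 0
    rw [add_comm p.1.1.1]
  constructor
  · rw [h3]
    exact (Equiv.summable_iff (Equiv.prodComm Md Md)).2 h1
  · rw [h3]
    exact ((Equiv.prodComm Md Md).tsum_eq _).le.trans h2

open Classical in
/-- A bound for a sum over the pairs `(a, b)` with `k_a + k_b = k_i`. -/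
theorem sum_pair (i : Md) (f : Md × Md → ℝ) (F G : Md → ℝ) (hF : ∀ a, 0 ≤ F a)
    (hG : ∀ a, 0 ≤ G a) (hsF : Summable F) (hsG : Summable G) (hf : ∀ p, 0 ≤ f p)
    (hz : ∀ p : Md × Md, p.1.1.1 + p.2.1.1 ≠ i.1.1 → f p = 0)
    (hle : ∀ p : Md × Md, p.1.1.1 + p.2.1.1 = i.1.1 → f p ≤ F p.1 + G p.2) :
    Summable f ∧ ∑' p, f p ≤ 2 * (∑' a, F a + ∑' a, G a) := by
  obtain ⟨h1, h2⟩ := sum_fst i F hF hsF
  obtain ⟨h3, h4⟩ := sum_snd i G hG hsG
  have h5 : ∀ p : Md × Md, f p ≤ (if p.1.1.1 + p.2.1.1 = i.1.1 then F p.1 else 0) +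
      (if p.1.1.1 + p.2.1.1 = i.1.1 then G p.2 else 0) := by
    intro p
    by_cases hp : p.1.1.1 + p.2.1.1 = i.1.1
    · rw [if_pos hp, if_pos hp]
      exact hle p hp
    · rw [if_neg hp, if_neg hp, hz p hp, add_zero]
  have h6 := h1.add h3
  have h7 : Summable f := Summable.of_nonneg_of_le hf h5 h6
  refine ⟨h7, ?_⟩
  calc ∑' p, f p ≤ ∑' p : Md × Md, ((if p.1.1.1 + p.2.1.1 = i.1.1 then F p.1 else 0) +
      (if p.1.1.1 + p.2.1.1 = i.1.1 then G p.2 else 0)) := Summable.tsum_le_tsum h5 h7 h6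
    _ = _ := Summable.tsum_add h1 h3
    _ ≤ 2 * ∑' a, F a + 2 * ∑' a, G a := add_le_add h2 h4
    _ = 2 * (∑' a, F a + ∑' a, G a) := by ring

end Pool.Agent.Y211.EF
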