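import Pool.Agent.Y211.EF.Pair

/-!
# Static estimate, type 4
-/

open Set Filter Topology

set_option autoImplicit false

namespace Pool.Agent.Y211.EF.ST4

open Pool.Agent.Y6.F
open Pool.Agent.Y6.M (Md C3 Frame cK)

theorem D0_of_ty (i : Md) (p : Md × Md) (h : Ty i p = 4) : σM p.1 ≠ 0 ∧ σM p.2 ≠ 0 ∧
    ¬ 256 * min (ln p.1) (ln p.2) ^ 4 ≤ mx i p ^ 3 ∧ D0 i p = 0 := by
  unfold Ty at h
  by_cases h1 : σM p.1 = 0
  · rw [if_pos h1] at h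
    by_cases h2 : σM p.2 = 0
    · rw [if_pos h2] at h
      split_ifs at h
      omega
    · rw [if_neg h2] at h
      omega
  · rw [if_neg h1] at h
    by_cases h2 : σM p.2 = 0
    · rw [if_pos h2] at h
      omega
    · rw [if_neg h2] at h
      by_cases h3 : 256 * min (ln p.1) (ln p.2) ^ 4 ≤ mx i p ^ 3
      · rw [if_pos h3] at h
        omega
      · refine ⟨h1, h2, h3, ?_⟩
        unfold D0
        rw [if_neg h1, if_neg h2, if_neg h3]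

theorem inv3 {x L μ : ℝ} (hL : 1 ≤ L) (hx : 1 ≤ x) (hLμ : L ≤ μ) (h : μ ^ 3 < 256 * x ^ 4) :
    (x ^ 3)⁻¹ ≤ 64 * (L ^ 2)⁻¹ := by
  have h1 : L ^ 3 ≤ 256 * x ^ 4 := (pow_le_pow_left₀ (by linarith) hLμ 3).trans h.le
  have h2 : L ^ 9 ≤ 256 ^ 3 * x ^ 12 := by
    have := pow_le_pow_left₀ (by positivity) h1 3
    calc L ^ 9 = (L ^ 3) ^ 3 := by ring
      _ ≤ (256 * x ^ 4) ^ 3 := this
      _ = 256 ^ 3 * x ^ 12 := by ring
  have h3 : L ^ 8 ≤ L ^ 9 := pow_le_pow_right₀ hL (by norm_num)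
  have h4 : (L ^ 2) ^ 4 ≤ (64 * x ^ 3) ^ 4 := by
    calc (L ^ 2) ^ 4 = L ^ 8 := by ring
      _ ≤ 256 ^ 3 * x ^ 12 := h3.trans h2
      _ = (64 * x ^ 3) ^ 4 := by ring
  have h5 : L ^ 2 ≤ 64 * x ^ 3 := le_of_pow_le_pow_left₀ (by norm_num) (by positivity) h4
  have hx3 : 0 < x ^ 3 := by positivity
  have hL2 : 0 < L ^ 2 := by positivity
  rw [inv_le_iff_one_le_mul₀ hx3, mul_assoc, mul_comm (L ^ 2)⁻¹, ← mul_assoc, ← div_eq_mul_inv,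
    le_div_iff₀ hL2, one_mul]
  exact h5

/-- The estimate of one pair. -/
theorem term {x y L μ ex ey el ck : ℝ} (hL : 1 ≤ L) (hx : 1 ≤ x) (hxy : x ≤ y) (hLxy : L ≤ x + y)
    (hLμ : L ≤ μ) (h : μ ^ 3 < 256 * x ^ 4) (hex : ex ≤ 1) (hex0 : 0 ≤ ex) (hey0 : 0 ≤ ey)
    (hey : ey ≤ L * el) (hel : 0 ≤ el) (hck : ck ≤ 2 * Real.pi * L) (_ : 0 ≤ ck) :
    ck * ((10 ^ 20)⁻¹ * (x ^ 7)⁻¹ * ex) * ((10 ^ 20)⁻¹ * (y ^ 7)⁻¹ * ey) ≤
      (10 ^ 5 * (10 ^ 20)⁻¹ ^ 2 * (L ^ 7)⁻¹ * el) * (x ^ 4)⁻¹ := by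
  have h1 := inv3 hL hx hLμ h
  have hL0 : 0 < L := by linarith
  have hx0 : 0 < x := by linarith
  have hy0 : 0 < y := by linarith
  have h2 : (y ^ 7)⁻¹ ≤ 128 * (L ^ 7)⁻¹ := by
    have h3 : L ≤ 2 * y := by linarith
    have h4 : L ^ 7 ≤ (2 * y) ^ 7 := pow_le_pow_left₀ hL0.le h3 7
    have h5 : 0 < y ^ 7 := by positivity
    have h6 : 0 < L ^ 7 := by positivity
    rw [inv_le_iff_one_le_mul₀ h5, mul_assoc, mul_comm (L ^ 7)⁻¹, ← mul_assoc, ← div_eq_mul_inv,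
      le_div_iff₀ h6, one_mul]
    calc L ^ 7 ≤ (2 * y) ^ 7 := h4
      _ = 128 * y ^ 7 := by ring
  have h7 : (x ^ 7)⁻¹ = (x ^ 4)⁻¹ * (x ^ 3)⁻¹ := by
    rw [← mul_inv]
    congr 1
    ring
  have hpi : 2 * Real.pi ≤ 8 := by
    have := Real.pi_lt_four
    linarith
  have hck' : ck ≤ 8 * L := hck.trans (mul_le_mul_of_nonneg_right hpi hL0.le)
  have hδ : (0 : ℝ) < (10 ^ 20)⁻¹ := by positivity
  rw [h7]
  have hA : 0 ≤ (x ^ 4)⁻¹ := by positivity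
  have hB : 0 ≤ (x ^ 3)⁻¹ := by positivity
  have hC : 0 ≤ (y ^ 7)⁻¹ := by positivity
  have s1 : ck * ((10 ^ 20)⁻¹ * ((x ^ 4)⁻¹ * (x ^ 3)⁻¹) * ex) ≤
      (8 * L) * ((10 ^ 20)⁻¹ * ((x ^ 4)⁻¹ * (64 * (L ^ 2)⁻¹)) * 1) := by
    gcongr
  have s2 : (10 ^ 20)⁻¹ * (y ^ 7)⁻¹ * ey ≤ (10 ^ 20)⁻¹ * (128 * (L ^ 7)⁻¹) * (L * el) := by
    gcongr
  have s3 : ck * ((10 ^ 20)⁻¹ * ((x ^ 4)⁻¹ * (x ^ 3)⁻¹) * ex) * ((10 ^ 20)⁻¹ * (y ^ 7)⁻¹ * ey) ≤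
      (8 * L) * ((10 ^ 20)⁻¹ * ((x ^ 4)⁻¹ * (64 * (L ^ 2)⁻¹)) * 1) *
        ((10 ^ 20)⁻¹ * (128 * (L ^ 7)⁻¹) * (L * el)) := by
    apply mul_le_mul s1 s2 (by positivity) (by positivity)
  refine s3.trans ?_
  have e1 : (8 * L) * ((10 ^ 20)⁻¹ * ((x ^ 4)⁻¹ * (64 * (L ^ 2)⁻¹)) * 1) *
        ((10 ^ 20)⁻¹ * (128 * (L ^ 7)⁻¹) * (L * el)) =
      (65536 * (10 ^ 20)⁻¹ ^ 2 * (L ^ 7)⁻¹ * el) * (x ^ 4)⁻¹ := by
    field_simp
    ring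
  rw [e1]
  have e2 : (65536 : ℝ) ≤ 10 ^ 5 := by norm_num
  gcongr

theorem t_ST4 : S_ST 4 := by
  intro hLV hCODE hSUMS hVEC hLAT hENV h hh M hM i hi
  obtain ⟨hln, htri⟩ := hCODE.2.2.2.2
  obtain ⟨hsum, hsum1⟩ := hLAT.1
  obtain ⟨emono, ehalf, -, -, eone⟩ := hENV.1 M hM
  have hL : 1 ≤ ln i := (hln i).1
  have hL0 : 0 < ln i := by linarith
  have hel : 0 ≤ env M (ln i) := (eone _).1.le
  set K : ℝ := 10 ^ 5 * (10 ^ 20)⁻¹ ^ 2 * (ln i ^ 7)⁻¹ * env M (ln i) with hK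
  have hK0 : 0 ≤ K := by positivity
  have heF0 : ∀ a, 0 ≤ eF M a := by
    intro a
    have h1 := (eone (ln a)).1.le
    have h2 : 0 < ln a := by linarith [(hln a).1]
    unfold eF
    split_ifs
    · exact h1
    · positivity
  have hnn : ∀ a : Md, 0 ≤ K * (ln a ^ 4)⁻¹ := by
    intro a
    have h2 : 0 < ln a := by linarith [(hln a).1]
    positivity
  have hsK : Summable fun a : Md => K * (ln a ^ 4)⁻¹ := hsum.mul_left K
  -- the terms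
  have htm : ∀ p : Md × Md, Ty i p = 4 → tm h M i p = ‖cK h i p.1 p.2‖ * eF M p.1 * eF M p.2 := by
    intro p hp
    obtain ⟨-, -, -, hD⟩ := D0_of_ty i p hp
    unfold tm
    rw [if_neg (by rw [hD]; exact lt_irrefl 0)]
  have hcK0 : ∀ p : Md × Md, p.1.1.1 + p.2.1.1 ≠ i.1.1 → cK h i p.1 p.2 = 0 := by
    intro p hp
    unfold cK
    rw [if_neg hp]
  have key := sum_pair i (fun p : Md × Md => if Ty i p = 4 then tm h M i p else 0)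
    (fun a => K * (ln a ^ 4)⁻¹) (fun a => K * (ln a ^ 4)⁻¹) hnn hnn hsK hsK ?_ ?_ ?_
  · refine ⟨key.1, key.2.trans ?_⟩
    rw [tsum_mul_left]
    have h1 : K * ∑' a : Md, (ln a ^ 4)⁻¹ ≤ K * 1000 := mul_le_mul_of_nonneg_left hsum1 hK0
    calc 2 * (K * ∑' a : Md, (ln a ^ 4)⁻¹ + K * ∑' a : Md, (ln a ^ 4)⁻¹) ≤ 4000 * K := by linarith
      _ = (4000 * 10 ^ 5 * (10 ^ 20)⁻¹ ^ 2) * ((ln i ^ 7)⁻¹ * env M (ln i)) := by
          rw [hK]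
          ring
      _ ≤ ((10 ^ 20)⁻¹ / 10) * ((ln i ^ 7)⁻¹ * env M (ln i)) := by
          apply mul_le_mul_of_nonneg_right _ (by positivity)
          norm_num
      _ = (10 ^ 20)⁻¹ / 10 * (ln i ^ 7)⁻¹ * env M (ln i) := by ring
  · intro p
    show (0 : ℝ) ≤ if Ty i p = 4 then tm h M i p else 0
    by_cases hp : Ty i p = 4
    · rw [if_pos hp, htm p hp]
      have h1 := heF0 p.1
      have h2 := heF0 p.2
      positivity
    · rw [if_neg hp]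
  · intro p hp
    show (if Ty i p = 4 then tm h M i p else 0) = (0 : ℝ)
    by_cases hp4 : Ty i p = 4
    · rw [if_pos hp4, htm p hp4, hcK0 p hp, norm_zero, zero_mul, zero_mul]
    · rw [if_neg hp4]
  · intro p hp
    show (if Ty i p = 4 then tm h M i p else 0) ≤ K * (ln p.1 ^ 4)⁻¹ + K * (ln p.2 ^ 4)⁻¹
    by_cases hp4 : Ty i p = 4
    swap
    · rw [if_neg hp4]
      exact add_nonneg (hnn _) (hnn _)
    rw [if_pos hp4, htm p hp4]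
    obtain ⟨h1, h2, h3, -⟩ := D0_of_ty i p hp4
    have ha : 1 ≤ ln p.1 := (hln _).1
    have hb : 1 ≤ ln p.2 := (hln _).1
    have hlab : ln i ≤ ln p.1 + ln p.2 := (htri i p.1 p.2 hp).1
    have hck := (hVEC h hh).2.1 i p.1 p.2
    have hck1 := hck.1
    have hmu : ln i ≤ mx i p := le_max_right _ _
    have e1 : eF M p.1 = (10 ^ 20)⁻¹ * (ln p.1 ^ 7)⁻¹ * env M (ln p.1) := by
      unfold eF
      rw [if_neg h1]
    have e2 : eF M p.2 = (10 ^ 20)⁻¹ * (ln p.2 ^ 7)⁻¹ * env M (ln p.2) := by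
      unfold eF
      rw [if_neg h2]
    have hhalf : ∀ y, ln i ≤ 2 * y → env M y ≤ ln i * env M (ln i) := by
      intro y hy
      exact (emono (ln i / 2) y (by linarith) (by linarith)).trans (ehalf _ hL)
    rw [not_le] at h3
    rcases le_total (ln p.1) (ln p.2) with hab | hab
    · rw [min_eq_left hab] at h3
      rw [e1, e2]
      have := term hL ha hab hlab hmu h3 (eone (ln p.1)).2 (eone (ln p.1)).1.le (eone (ln p.2)).1.le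
        (hhalf _ (by linarith)) hel hck1 (norm_nonneg _)
      exact this.trans (le_add_of_nonneg_right (hnn _))
    · rw [min_eq_right hab] at h3
      rw [e1, e2]
      have := term hL hb hab (by linarith) hmu h3 (eone (ln p.2)).2 (eone (ln p.2)).1.le
        (eone (ln p.1)).1.le
        (hhalf _ (by linarith)) hel hck1 (norm_nonneg _)
      have e3 : ‖cK h i p.1 p.2‖ * ((10 ^ 20)⁻¹ * (ln p.1 ^ 7)⁻¹ * env M (ln p.1)) *
          ((10 ^ 20)⁻¹ * (ln p.2 ^ 7)⁻¹ * env M (ln p.2)) =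
          ‖cK h i p.1 p.2‖ * ((10 ^ 20)⁻¹ * (ln p.2 ^ 7)⁻¹ * env M (ln p.2)) *
          ((10 ^ 20)⁻¹ * (ln p.1 ^ 7)⁻¹ * env M (ln p.1)) := by ring
      rw [e3]
      exact this.trans (le_add_of_nonneg_left (hnn _))

end Pool.Agent.Y211.EF.ST4
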